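import Pool.Agent.H38.SEP.TRE

/-!
Project SEP, module F13: from normal forms to Sigma-1-3 sets.
-/

set_option linter.unusedVariables false
set_option synthInstance.maxSize 100000

namespace SW.SEP

open SW

section
variable {N : Type} [SetStr N] [ZFC N]

/-- the part of `v` with the number `j` -/
noncomputable def parF (k j v : N) : N := gr om (fun i => app v (app k (opair j i)))

theorem parF_df : Cl3 (fun a b c : N => parF a b c = parF a b c) := by
  unfold parF; infer_instance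

instance {n : ℕ} {t s u : (Fin n → N) → N} [ht : DfT t] [hs : DfT s] [hu : DfT u] :
    DfT (fun v => parF (t v) (s v) (u v)) := by unfold parF; infer_instance

/-- the point with the parts `v` and `u` -/
noncomputable def mrgF (k v u : N) : N := sep (prod om om) (fun z => ∃ m b, z = opair m b ∧
  ((∃ i, E i om ∧ m = app k (opair emp i) ∧ b = app v i) ∨
    (∃ i, E i om ∧ m = app k (opair one i) ∧ b = app u i) ∨
    ((∀ i, E i om → ¬ m = app k (opair emp i) ∧ ¬ m = app k (opair one i)) ∧ b = emp)))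

instance instQ5F {n : ℕ} {t s u x y z : (Fin n → N) → N} [ht : DfT t] [hs : DfT s] [hu : DfT u]
    [hx : DfT x] [hy : DfT y] [hz : DfT z] :
    DfT (fun v => q5 (t v) (s v) (u v) (x v) (y v) (z v)) := by
  unfold q5; infer_instance

/-- the closed set -/
noncomputable def cloF (k T : N) : N := sep (prod BS (prod BS (prod BS BS))) (fun t =>
  ∃ x y w v, t = opair x (opair y (opair w v)) ∧
    ∀ n, E n om → E (q5 n x y w (parF k emp v) (parF k one v)) T)

theorem emp_ne_one : (emp : N) ≠ one := by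
  intro h
  have h1 : E (emp : N) one := by unfold one; simp
  rw [← h] at h1
  exact not_mem_emp _ h1

theorem mem_cloF {k T x y w v : N} : E (opair x (opair y (opair w v))) (cloF k T) ↔
    (Fnc om om x ∧ Fnc om om y ∧ Fnc om om w ∧ Fnc om om v) ∧
      ∀ n, E n om → E (q5 n x y w (parF k emp v) (parF k one v)) T := by
  unfold cloF
  rw [mem_sep]
  constructor
  · rintro ⟨h1, x', y', w', v', h2, h3⟩
    rw [opair_inj, opair_inj, opair_inj] at h2
    obtain ⟨rfl, rfl, rfl, rfl⟩ := h2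
    rw [mem_prod, mem_prod, mem_prod, mem_BS, mem_BS, mem_BS, mem_BS] at h1
    exact ⟨h1, h3⟩
  · rintro ⟨h1, h2⟩
    refine ⟨?_, x, y, w, v, rfl, h2⟩
    rw [mem_prod, mem_prod, mem_prod, mem_BS, mem_BS, mem_BS, mem_BS]
    exact h1

theorem nat_ub {a b : N} (ha : E a om) (hb : E b om) : ∃ c, E c om ∧ Sub a c ∧ Sub b c := by
  rcases (Ord_nat ha).tri (Ord_nat hb) with h | h | h
  · exact ⟨b, hb, (Ord_nat hb).sub_of_mem h, Sub.refl b⟩
  · exact ⟨b, hb, h ▸ Sub.refl a, Sub.refl b⟩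
  · exact ⟨a, ha, Sub.refl a, (Ord_nat ha).sub_of_mem h⟩

theorem one_mem_omF : E (one : N) om := by
  have h : (one : N) = suc emp := ext fun x => by simp [one]
  rw [h]; exact suc_mem_om emp_mem_om

theorem bound_par {k : N} (hk : Inj2 k) : ∀ n, E n om → ∃ m, E m om ∧ Sub n m ∧
    ∀ i, E i n → E (app k (opair emp i)) m ∧ E (app k (opair one i)) m := by
  have h1 : E (one : N) om := one_mem_omF
  refine om_ind (C := fun n : N => ∃ m, E m om ∧ Sub n m ∧
    ∀ i, E i n → E (app k (opair emp i)) m ∧ E (app k (opair one i)) m) inferInstance ?_ ?_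
  · exact ⟨emp, emp_mem_om, Sub.refl _, fun i hi => absurd hi (not_mem_emp i)⟩
  · rintro n hn ⟨m, hm, h2, h3⟩
    obtain ⟨c1, hc1, s1, s2⟩ := nat_ub hm (suc_mem_om hn)
    obtain ⟨c2, hc2, s3, s4⟩ := nat_ub (suc_mem_om (hk.1 emp n emp_mem_om hn))
      (suc_mem_om (hk.1 one n h1 hn))
    obtain ⟨c, hc, s5, s6⟩ := nat_ub hc1 hc2
    refine ⟨c, hc, fun z hz => s5 z (s2 z hz), fun i hi => ?_⟩
    rw [mem_suc] at hi
    rcases hi with hi | rfl
    · exact ⟨s5 _ (s1 _ (h3 i hi).1), s5 _ (s1 _ (h3 i hi).2)⟩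
    · exact ⟨s6 _ (s3 _ (by simp)), s6 _ (s4 _ (by simp))⟩

theorem mem_mrgF {k v u m b : N} : E (opair m b) (mrgF k v u) ↔ (E m om ∧ E b om) ∧
    ((∃ i, E i om ∧ m = app k (opair emp i) ∧ b = app v i) ∨
    (∃ i, E i om ∧ m = app k (opair one i) ∧ b = app u i) ∨
    ((∀ i, E i om → ¬ m = app k (opair emp i) ∧ ¬ m = app k (opair one i)) ∧ b = emp)) := by
  unfold mrgF
  rw [mem_sep, mem_prod]
  constructor
  · rintro ⟨h1, m', b', h2, h3⟩
    rw [opair_inj] at h2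
    obtain ⟨rfl, rfl⟩ := h2
    exact ⟨h1, h3⟩
  · rintro ⟨h1, h2⟩
    exact ⟨h1, m, b, rfl, h2⟩

theorem mrgF_fnc (hF : SqFacts N) {k v u : N} (hk : Inj2 k) (hv : Fnc om om v)
    (hu : Fnc om om u) : Fnc om om (mrgF k v u) := by
  refine ⟨fun z hz => ?_, fun m hm => ?_, fun m b b' h h' => ?_⟩
  · unfold mrgF at hz
    rw [mem_sep] at hz
    obtain ⟨h1, m, b, rfl, _⟩ := hz
    rw [mem_prod] at h1
    exact ⟨m, b, h1.1, h1.2, rfl⟩
  · by_cases h1 : ∃ i, E i om ∧ m = app k (opair emp i)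
    · obtain ⟨i, hi, e⟩ := h1
      exact ⟨app v i, mem_mrgF.2 ⟨⟨hm, (hF.fapp hv hi).2⟩, Or.inl ⟨i, hi, e, rfl⟩⟩⟩
    · by_cases h2 : ∃ i, E i om ∧ m = app k (opair one i)
      · obtain ⟨i, hi, e⟩ := h2
        exact ⟨app u i, mem_mrgF.2 ⟨⟨hm, (hF.fapp hu hi).2⟩, Or.inr (Or.inl ⟨i, hi, e, rfl⟩)⟩⟩
      · exact ⟨emp, mem_mrgF.2 ⟨⟨hm, emp_mem_om⟩, Or.inr (Or.inr ⟨fun i hi =>
          ⟨fun e => h1 ⟨i, hi, e⟩, fun e => h2 ⟨i, hi, e⟩⟩, rfl⟩)⟩⟩
  · rw [mem_mrgF] at h h'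
    rcases h.2 with ⟨i, hi, e, rfl⟩ | ⟨i, hi, e, rfl⟩ | ⟨h1, rfl⟩
    · rcases h'.2 with ⟨i', hi', e', rfl⟩ | ⟨i', hi', e', rfl⟩ | ⟨h1', rfl⟩
      · rw [e] at e'
        rw [(hk.2 _ _ _ _ emp_mem_om hi emp_mem_om hi' e').2]
      · rw [e] at e'
        exact absurd (hk.2 _ _ _ _ emp_mem_om hi one_mem_omF hi' e').1 emp_ne_one
      · exact absurd e (h1' i hi).1
    · rcases h'.2 with ⟨i', hi', e', rfl⟩ | ⟨i', hi', e', rfl⟩ | ⟨h1', rfl⟩
      · rw [e] at e'
        exact absurd (hk.2 _ _ _ _ one_mem_omF hi emp_mem_om hi' e').1.symm emp_ne_one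
      · rw [e] at e'
        rw [(hk.2 _ _ _ _ one_mem_omF hi one_mem_omF hi' e').2]
      · exact absurd e (h1' i hi).2
    · rcases h'.2 with ⟨i', hi', e', rfl⟩ | ⟨i', hi', e', rfl⟩ | ⟨h1', rfl⟩
      · exact absurd e' (h1 i' hi').1
      · exact absurd e' (h1 i' hi').2
      · rfl

theorem parF_fnc (hF : SqFacts N) {k j v : N} (hk : Inj2 k) (hj : E j om)
    (hv : Fnc om om v) : Fnc om om (parF k j v) := by
  unfold parF
  exact hF.fgr _ inferInstance fun i hi => (hF.fapp hv (hk.1 j i hj hi)).2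

theorem opair_mem_parF {k j v i b : N} : E (opair i b) (parF k j v) ↔
    E i om ∧ b = app v (app k (opair j i)) := by
  unfold parF
  exact opair_mem_gr inferInstance

theorem par_mrg_emp (hF : SqFacts N) {k v u : N} (hk : Inj2 k) (hv : Fnc om om v)
    (hu : Fnc om om u) : parF k emp (mrgF k v u) = v := by
  have hm := mrgF_fnc hF hk hv hu
  refine hF.fext (parF_fnc hF hk emp_mem_om hm) hv fun x y h => ?_
  rw [opair_mem_parF] at h
  obtain ⟨hx, rfl⟩ := h
  have h1 : E (opair (app k (opair emp x)) (app v x)) (mrgF k v u) :=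
    mem_mrgF.2 ⟨⟨hk.1 _ _ emp_mem_om hx, (hF.fapp hv hx).2⟩, Or.inl ⟨x, hx, rfl, rfl⟩⟩
  rw [(hF.fapp' hm h1).2.2]
  exact (hF.fapp hv hx).1

theorem par_mrg_one (hF : SqFacts N) {k v u : N} (hk : Inj2 k) (hv : Fnc om om v)
    (hu : Fnc om om u) : parF k one (mrgF k v u) = u := by
  have hm := mrgF_fnc hF hk hv hu
  refine hF.fext (parF_fnc hF hk one_mem_omF hm) hu fun x y h => ?_
  rw [opair_mem_parF] at h
  obtain ⟨hx, rfl⟩ := h
  have h1 : E (opair (app k (opair one x)) (app u x)) (mrgF k v u) :=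
    mem_mrgF.2 ⟨⟨hk.1 _ _ one_mem_omF hx, (hF.fapp hu hx).2⟩,
      Or.inr (Or.inl ⟨x, hx, rfl, rfl⟩)⟩
  rw [(hF.fapp' hm h1).2.2]
  exact (hF.fapp hu hx).1

/-- functions which agree below `m` have the same values there -/
theorem app_eq_of_res (hF : SqFacts N) {m x x' i : N} (hx : Fnc om om x) (hx' : Fnc om om x')
    (h : res x m = res x' m) (hi : E i om) (him : E i m) : app x i = app x' i := by
  have h1 : E (opair i (app x i)) (res x m) := opair_mem_res.2 ⟨(hF.fapp hx hi).1, him⟩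
  rw [h] at h1
  exact ((hF.fapp' hx' (opair_mem_res.1 h1).1).2.2).symm

theorem res_par_eq (hF : SqFacts N) {k j m n v v' : N} (hk : Inj2 k) (hj : E j om)
    (hn : E n om) (hm : ∀ i, E i n → E (app k (opair j i)) m) (hv : Fnc om om v)
    (hv' : Fnc om om v') (h : res v m = res v' m) :
    res (parF k j v) n = res (parF k j v') n := by
  have key : ∀ v v' : N, Fnc om om v → Fnc om om v' → res v m = res v' m →
      ∀ z, E z (res (parF k j v) n) → E z (res (parF k j v') n) := by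
    intro v v' hv hv' h z hz
    rw [mem_res] at hz
    obtain ⟨h1, i, b, hi, rfl⟩ := hz
    rw [opair_mem_parF] at h1
    rw [opair_mem_res, opair_mem_parF]
    refine ⟨⟨h1.1, ?_⟩, hi⟩
    rw [h1.2]
    exact app_eq_of_res hF hv hv' h (hk.1 j i hj h1.1) (hm i hi)
  exact ext fun z => ⟨key v v' hv hv' h z, key v' v hv' hv h.symm z⟩

theorem res_sub_eq {m n x x' : N} (hs : Sub n m) (h : res x m = res x' m) :
    res x n = res x' n := by
  have key : ∀ x x' : N, res x m = res x' m → ∀ z, E z (res x n) → E z (res x' n) := by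
    intro x x' h z hz
    rw [mem_res] at hz
    obtain ⟨h1, i, b, hi, rfl⟩ := hz
    have h2 : E (opair i b) (res x m) := opair_mem_res.2 ⟨h1, hs i hi⟩
    rw [h] at h2
    exact opair_mem_res.2 ⟨(opair_mem_res.1 h2).1, hi⟩
  exact ext fun z => ⟨key x x' h z, key x' x h.symm z⟩

end

theorem sep_f13 (hS : SQFStmt) (hI : IN2Stmt) : F13Stmt := by
  intro N _ _ R A hR hA
  have hF := hS N
  obtain ⟨T, hT⟩ := hR
  obtain ⟨k, hk⟩ := hI N
  refine ⟨fun x hx => isPoint_iff_fnc.2 ((hA x).1 hx).1, cloF k T, ?_, ?_⟩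
  · intro x y w v hx hy hw hv hcon
    rw [isPoint_iff_fnc] at hx hy hw hv
    rw [quadIn_iff_mem, mem_cloF] at hcon
    have h1 : ¬ ∀ n, E n om → E (q5 n x y w (parF k emp v) (parF k one v)) T :=
      fun h => hcon ⟨⟨hx, hy, hw, hv⟩, h⟩
    push Not at h1
    obtain ⟨n, hn, h2⟩ := h1
    obtain ⟨m, hm, hnm, h3⟩ := bound_par hk n hn
    refine ⟨m, hm, fun x' y' w' v' hx' hy' hw' hv' a1 a2 a3 a4 h4 => ?_⟩
    rw [isPoint_iff_fnc] at hx' hy' hw' hv'
    rw [agreeBelow_iff_fnc hx hx'] at a1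
    rw [agreeBelow_iff_fnc hy hy'] at a2
    rw [agreeBelow_iff_fnc hw hw'] at a3
    rw [agreeBelow_iff_fnc hv hv'] at a4
    rw [quadIn_iff_mem, mem_cloF] at h4
    have h5 := h4.2 n hn
    apply h2
    have e : q5 n x y w (parF k emp v) (parF k one v)
        = q5 n x' y' w' (parF k emp v') (parF k one v') := by
      unfold q5
      rw [res_sub_eq hnm a1, res_sub_eq hnm a2, res_sub_eq hnm a3,
        res_par_eq hF hk emp_mem_om hn (fun i hi => (h3 i hi).1) hv hv' a4,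
        res_par_eq hF hk one_mem_omF hn (fun i hi => (h3 i hi).2) hv hv' a4]
    rw [e]
    exact h5
  · intro x hx
    rw [isPoint_iff_fnc] at hx
    rw [hA]
    constructor
    · rintro ⟨_, y, hy, h⟩
      refine ⟨y, isPoint_iff_fnc.2 hy, fun w hw => ?_⟩
      rw [isPoint_iff_fnc] at hw
      obtain ⟨v, hv, hr⟩ := h w hw
      obtain ⟨u, hu, h1⟩ := (hT x y w v hx hy hw hv).1 hr
      refine ⟨mrgF k v u, isPoint_iff_fnc.2 (mrgF_fnc hF hk hv hu), ?_⟩
      rw [quadIn_iff_mem, mem_cloF]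
      refine ⟨⟨hx, hy, hw, mrgF_fnc hF hk hv hu⟩, fun n hn => ?_⟩
      rw [par_mrg_emp hF hk hv hu, par_mrg_one hF hk hv hu]
      exact h1 n hn
    · rintro ⟨y, hy, h⟩
      refine ⟨hx, y, isPoint_iff_fnc.1 hy, fun w hw => ?_⟩
      obtain ⟨v, hv, h1⟩ := h w (isPoint_iff_fnc.2 hw)
      rw [quadIn_iff_mem, mem_cloF] at h1
      obtain ⟨⟨_, hy', _, hv'⟩, h2⟩ := h1
      refine ⟨parF k emp v, parF_fnc hF hk emp_mem_om hv', ?_⟩
      exact (hT x y w _ hx hy' hw (parF_fnc hF hk emp_mem_om hv')).2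
        ⟨parF k one v, parF_fnc hF hk one_mem_omF hv', h2⟩

end SW.SEP
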