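import Pool.Agent.H63.SEP.Stmts3

/-!
Project SEP, module TRE: from Sigma-1-3 sets to trees.
-/

set_option linter.unusedVariables false
set_option synthInstance.maxSize 100000

namespace SW.SEP

open SW

section
variable {N : Type} [SetStr N] [ZF N]

theorem isPoint_iff_fnc {o x : N} : IsPoint o x ↔ Fnc o o x := by
  unfold IsPoint IsFunction Fnc
  constructor
  · rintro ⟨h1, h2⟩
    refine ⟨fun z hz => ?_, fun a ha => ?_, fun a b b' h h' => ?_⟩
    · obtain ⟨a, b, ha, hb, h⟩ := h1 z hz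
      exact ⟨a, b, ha, hb, isOP_iff.1 h⟩
    · obtain ⟨b, hb, _⟩ := h2 a ha
      exact ⟨b, pairIn_iff.1 hb⟩
    · obtain ⟨a', b1, ha, _, e⟩ := h1 _ h
      rw [isOP_iff, opair_inj] at e
      obtain ⟨c, hc, hc'⟩ := h2 a (by rw [e.1]; exact ha)
      rw [hc' b (pairIn_iff.2 h), hc' b' (pairIn_iff.2 h')]
  · rintro ⟨h1, h2, h3⟩
    refine ⟨fun z hz => ?_, fun a ha => ?_⟩
    · obtain ⟨a, b, ha, hb, h⟩ := h1 z hz
      exact ⟨a, b, ha, hb, isOP_iff.2 h⟩
    · obtain ⟨b, hb⟩ := h2 a ha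
      exact ⟨b, pairIn_iff.2 hb, fun b' hb' => h3 a b' b (pairIn_iff.1 hb') hb⟩

theorem agreeBelow_iff_res {n x x' : N} (hx : ∀ z, E z x → ∃ a b, z = opair a b)
    (hx' : ∀ z, E z x' → ∃ a b, z = opair a b) : AgreeBelow n x x' ↔ res x n = res x' n := by
  constructor
  · intro h
    apply ext
    intro z
    rw [mem_res, mem_res]
    constructor
    · rintro ⟨hz, k, a, hk, rfl⟩
      exact ⟨pairIn_iff.1 ((h k a hk).1 (pairIn_iff.2 hz)), k, a, hk, rfl⟩
    · rintro ⟨hz, k, a, hk, rfl⟩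
      exact ⟨pairIn_iff.1 ((h k a hk).2 (pairIn_iff.2 hz)), k, a, hk, rfl⟩
  · intro h k a hk
    rw [pairIn_iff, pairIn_iff]
    constructor
    · intro h1
      have h2 : E (opair k a) (res x n) := opair_mem_res.2 ⟨h1, hk⟩
      rw [h] at h2
      exact (opair_mem_res.1 h2).1
    · intro h1
      have h2 : E (opair k a) (res x' n) := opair_mem_res.2 ⟨h1, hk⟩
      rw [← h] at h2
      exact (opair_mem_res.1 h2).1

theorem agreeBelow_iff_fnc {a b n x x' : N} (hx : Fnc a b x) (hx' : Fnc a b x') :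
    AgreeBelow n x x' ↔ res x n = res x' n := by
  refine agreeBelow_iff_res (fun z hz => ?_) (fun z hz => ?_)
  · obtain ⟨u, v, _, _, h⟩ := hx.1 z hz; exact ⟨u, v, h⟩
  · obtain ⟨u, v, _, _, h⟩ := hx'.1 z hz; exact ⟨u, v, h⟩

theorem quadIn_iff_mem {x y w v C : N} :
    QuadIn x y w v C ↔ E (opair x (opair y (opair w v))) C := by
  unfold QuadIn
  constructor
  · rintro ⟨p, q, h1, h2, h3⟩
    rw [isOP_iff] at h1 h2
    rw [pairIn_iff, h2, h1] at h3
    exact h3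
  · intro h
    exact ⟨_, _, isOP_iff.2 rfl, isOP_iff.2 rfl, pairIn_iff.2 h⟩

/-- the tree of a set of quadruples -/
noncomputable def treOf (C : N) : N := sep Q4 (fun t => ∃ m x y w v, E m om ∧ Fnc om om x ∧
  Fnc om om y ∧ Fnc om om w ∧ Fnc om om v ∧ E (opair x (opair y (opair w v))) C ∧
  t = opair (res x m) (opair (res y m) (opair (res w m) (res v m))))

end

theorem sep_tre (hS : SQFStmt) : TREStmt := by
  intro N _ _ A hA
  have hF := hS N
  obtain ⟨hA1, C, hC, hA2⟩ := hA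
  refine ⟨treOf C, fun x => ?_⟩
  have key : ∀ x y w v n : N, Fnc om om x → Fnc om om y → Fnc om om w → Fnc om om v →
      E (opair x (opair y (opair w v))) C → E n om →
      E (opair (res x n) (opair (res y n) (opair (res w n) (res v n)))) (treOf C) := by
    intro x y w v n hx hy hw hv h hn
    unfold treOf
    rw [mem_sep]
    refine ⟨?_, n, x, y, w, v, hn, hx, hy, hw, hv, h, rfl⟩
    unfold Q4
    exact mem_prod.2 ⟨(hF.rsi hx hn).1, mem_prod.2 ⟨(hF.rsi hy hn).1,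
      mem_prod.2 ⟨(hF.rsi hw hn).1, (hF.rsi hv hn).1⟩⟩⟩
  have key2 : ∀ x y w v : N, Fnc om om x → Fnc om om y → Fnc om om w → Fnc om om v →
      (∀ n, E n om → E (opair (res x n) (opair (res y n) (opair (res w n) (res v n))))
        (treOf C)) → E (opair x (opair y (opair w v))) C := by
    intro x y w v hx hy hw hv h
    by_contra hcon
    obtain ⟨n, hn, h1⟩ := hC x y w v (isPoint_iff_fnc.2 hx) (isPoint_iff_fnc.2 hy)
      (isPoint_iff_fnc.2 hw) (isPoint_iff_fnc.2 hv) (fun h' => hcon (quadIn_iff_mem.1 h'))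
    have h2 := h n hn
    unfold treOf at h2
    rw [mem_sep] at h2
    obtain ⟨_, m, x', y', w', v', hm, hx', hy', hw', hv', h3, h4⟩ := h2
    rw [opair_inj, opair_inj, opair_inj] at h4
    obtain ⟨e1, e2, e3, e4⟩ := h4
    have emn : n = m := by
      have h5 := (hF.rsi hx hn).2
      rw [e1, (hF.rsi hx' hm).2] at h5
      exact h5.symm
    subst emn
    exact h1 x' y' w' v' (isPoint_iff_fnc.2 hx') (isPoint_iff_fnc.2 hy')
      (isPoint_iff_fnc.2 hw') (isPoint_iff_fnc.2 hv') ((agreeBelow_iff_fnc hx hx').2 e1)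
      ((agreeBelow_iff_fnc hy hy').2 e2) ((agreeBelow_iff_fnc hw hw').2 e3)
      ((agreeBelow_iff_fnc hv hv').2 e4) (quadIn_iff_mem.2 h3)
  constructor
  · intro hx
    have hxp := hA1 x hx
    obtain ⟨y, hy, h⟩ := (hA2 x hxp).1 hx
    refine ⟨isPoint_iff_fnc.1 hxp, y, isPoint_iff_fnc.1 hy, fun w hw => ?_⟩
    obtain ⟨v, hv, h'⟩ := h w (isPoint_iff_fnc.2 hw)
    exact ⟨v, isPoint_iff_fnc.1 hv, fun n hn => key x y w v n (isPoint_iff_fnc.1 hxp)
      (isPoint_iff_fnc.1 hy) hw (isPoint_iff_fnc.1 hv) (quadIn_iff_mem.1 h') hn⟩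
  · rintro ⟨hx, y, hy, h⟩
    refine (hA2 x (isPoint_iff_fnc.2 hx)).2 ⟨y, isPoint_iff_fnc.2 hy, fun w hw => ?_⟩
    obtain ⟨v, hv, h'⟩ := h w (isPoint_iff_fnc.1 hw)
    exact ⟨v, isPoint_iff_fnc.2 hv, quadIn_iff_mem.2 (key2 x y w v hx hy
      (isPoint_iff_fnc.1 hw) hv h')⟩

end SW.SEP
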